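import Pool.Agent.Work.MP_92a29d_co_h45.pp.PlainX

/-! Family of instances (generated). -/

namespace Pool.Agent.Work.MP_92a29d_co.Place

open Pool.Agent.Work.MP_92a29d_co_h45

def h4431MP3_S : Spec where
  K := 9
  cons := [(511, 17, 17), (7, 1, 1), (56, 8, 8), (448, 8, 8), (73, 1, 1), (146, 8, 8), (292, 8, 8), (16, 0, 4), (32, 0, 4), (128, 0, 4), (256, 0, 4), (1, 0, 0), (8, 0, 0), (4, 0, 0)]
  data := [(0, 73786976294854983745, 9824920946709367261104160),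
    (1, 1073741889, 9824920946709367261104160),
    (2, 302231454903726013153345, 9824920946709367261104096),
    (3, 4722366482869661995009, 9824920946709367261104096),
    (4, 4399120257025, 9824920946709367261104096),
    (5, 281543696191489, 9824920946709367261071328),
    (6, 17039361, 9824920946709367244294112),
    (7, 18014399583485953, 9824920946709358654359520),
    (8, 1152921573326585857, 9824920946708808896448463)]
  HG := 9824925631597030183962737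
  G := 9824920946709367261104160
  maps := [[0, 1, 2, 3, 4, 5, 6, 7, 8]]
  mapsP := [[1099511627776, 34359738368, 1073741824, 33554432, 1048576, 32768, 1024, 32, 1]]
  places := [[1, 4, 4, 4, 4, 5, 5, 5, 5, 6, 7, 7, 7, 8, 8, 8, 8]]
  placesP := [4502337880096]

def h4431MP3_T : Spec2 where
  S := h4431MP3_S
  B := 3
  k := 2
  pats := [([], 17, 17), ([(0, 0)], 1, 1), ([(0, 1)], 8, 8), ([(0, 2)], 8, 8), ([(1, 0)], 1, 1), ([(1, 1)], 8, 8), ([(1, 2)], 8, 8), ([(0, 1), (1, 1)], 0, 4), ([(0, 1), (1, 2)], 0, 4), ([(0, 2), (1, 1)], 0, 4), ([(0, 2), (1, 2)], 0, 4), ([(1, 0), (0, 0)], 0, 0), ([(1, 0), (0, 1)], 0, 0), ([(0, 0), (1, 2)], 0, 0)]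
  syms := [([0, 1], [0, 0])]

def h4431MP3_cd : List CD := [⟨.lev 4, [(1, 1), (2, 2), (2, 2), (1, 1), (1, 1), (2, 2), (2, 2), (1, 1), (2, 2), (2, 2), (1, 1)], [0, 1, 2, 1, 2, 1, 2, 1, 2, 1, 2]⟩,
  ⟨.lev 4, [(1, 1), (1, 1), (1, 4), (1, 4), (1, 4), (1, 4), (1, 4), (1, 4), (1, 4), (1, 4), (1, 1)], [0, 1, 2, 1, 2, 1, 2, 1, 2, 1, 2]⟩]

def h4431MP3_m : Fin 4 → ℕ := ![4, 4, 3, 1]

/-- relations -/
def h4431MP3_rel : List (ℕ × ℕ × ℕ) := [(1, 0, 4)]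

/-- additional bounds -/
def h4431MP3_ext : List (List (ℕ × ℕ) × ℕ × ℕ) := [([(0, 0), (1, 2)], 0, 0)]

def h4431MP3_J0 : InstX := { inst := { kinds := [.lev 4, .lev 4, .expl 3, .expl 1], lv := [[[0], [1, 3, 5, 7, 9], [1, 3, 5, 7, 9], [1, 3, 5, 7, 9], [1, 3, 5, 7, 9], [1, 3, 5, 7, 9], [1, 3, 5, 7, 9], [1, 3, 5, 7, 9], [1, 3, 5, 7, 9], [4], [2, 4, 6, 8, 10], [2, 4, 6, 8, 10], [2, 4, 6, 8, 10], [2, 4, 6, 8, 10], [2, 4, 6, 8, 10], [2, 4, 6, 8, 10], [2, 4, 6, 8, 10]], [[1, 3, 5, 7, 9], [1, 3, 5, 7, 9], [1, 3, 5, 7, 9], [1, 3, 5, 7, 9], [1, 3, 5, 7, 9], [2, 4, 6, 8, 10], [2, 4, 6, 8, 10], [2, 4, 6, 8, 10], [2, 4, 6, 8, 10], [0], [1, 3, 5, 7, 9], [1, 3, 5, 7, 9], [1, 3, 5, 7, 9], [2, 4, 6, 8, 10], [2, 4, 6, 8, 10], [2, 4, 6, 8, 10], [2, 4, 6, 8, 10]]], ne := [(0, 1), (0, 2), (0, 3), (0, 4), (0, 5), (0, 6), (0, 7), (0, 8), (0, 9), (0, 10), (1, 1), (1, 2), (1, 3), (1, 4),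 (1, 5), (1, 6), (1, 7), (1, 8), (1, 9), (1, 10)], size := [(0, 1, 2), (0, 2, 2), (0, 3, 1), (0, 4, 1), (0, 5, 2), (0, 6, 2), (0, 7, 1), (0, 8, 2), (0, 9, 2), (0, 10, 1), (1, 1, 1), (1, 10, 1)], lex := [(1, 2), (2, 3), (3, 4), (5, 6), (6, 7), (7, 8), (10, 11), (11, 12), (13, 14), (14, 15), (15, 16)], five := [], forbid := [] }, un := [], ex := [] }

theorem h4431MP3_fam : famX h4431MP3_T h4431MP3_cd h4431MP3_m h4431MP3_rel h4431MP3_ext [[h4431MP3_J0]] = true := by decide +kernel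

end Pool.Agent.Work.MP_92a29d_co.Place
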