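import Pool.Agent.Work.MP_92a29d_co_h45.pp.C4431PP
import Pool.Agent.Work.MP_92a29d_co_h45.pp.MP0
import Pool.Agent.Work.MP_92a29d_co_h45.pp.MP1
import Pool.Agent.Work.MP_92a29d_co_h45.pp.MP2
import Pool.Agent.Work.MP_92a29d_co_h45.pp.MP3
import Pool.Agent.Work.MP_92a29d_co_h45.pp.MP4
import Pool.Agent.Work.MP_92a29d_co_h45.pp.MP5

/-!
(4,4,3,1): the class 0 has the profile (1,1,2,2,1,1,2,2,1,2,2), the class 1 has three consecutive
single levels.
-/

namespace Pool.Agent.Work.MP_92a29d_co.Place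

open SimpleGraph Finset Pool.Agent.Work.MP_92a29d_co_h45

section

variable {V : Type*} [Fintype V] [DecidableEq V]

/-- three consecutive single levels -/
def ProfM (f : V → ZMod (2 * 4 + 3)) (j : ZMod (2 * 4 + 3)) : Prop :=
  lsize f (j - 1) = 1 ∧ lsize f j = 1 ∧ lsize f (j + 1) = 1

omit [DecidableEq V] in
theorem ProfM.neg {f : V → ZMod (2 * 4 + 3)} {j : ZMod (2 * 4 + 3)} (h : ProfM f j) :
    ProfM (fun u => - f u) (-j) := by
  obtain ⟨h1, h2, h3⟩ := h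
  refine ⟨?_, ?_, ?_⟩
  · rw [lsize_neg, show -(-j - 1) = j + 1 by ring]; exact h3
  · rw [lsize_neg, neg_neg]; exact h2
  · rw [lsize_neg, show -(-j + 1) = j - 1 by ring]; exact h1

theorem dM_zero : ∀ b < 11, (genCD 4 true).d b = 0 ↔ b = 0 := by decide
theorem dM_odd : ∀ b < 11, b % 2 = 1 → (genCD 4 true).d b = 1 := by decide

/-- the step: `vA` is the middle vertex of class 1 and has the index `b` in class 0, the vertex `vB`
of index `s` in class 0 has an odd label in class 1 -/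
theorem step_MP (hV : Fintype.card V = 17) {G : Fin 4 → SimpleGraph V}
    (hcov : Cover V ![4, 4, 3, 1] G)
    {f0 : V → ZMod (2 * 4 + 3)} (h0 : CycHom (G 0) (2 * 4 + 3) f0) {c0 : ZMod (2 * 4 + 3)}
    (hc0 : ProfC f0 c0)
    {f1 : V → ZMod (2 * 4 + 3)} (h1 : CycHom (G 1) (2 * 4 + 3) f1) {j1 : ZMod (2 * 4 + 3)}
    (hj1 : ProfM f1 j1)
    {vA vB : V} (huA : ∀ u, f1 u = j1 → u = vA)
    {b s l : ℕ} (hb : f0 vA = c0 + (b : ℕ)) (huB : ∀ u, f0 u = c0 + (s : ℕ) → u = vB)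
    (hl : ((b : ZMod (2 * 4 + 3)) - (s : ZMod (2 * 4 + 3))).val = l)
    (hodd : (f1 vB - j1).val % 2 = 1)
    {T : Spec2} {J : InstX}
    (hF : famX T [cdOf (rotP s), genCD 4 true] ![4, 4, 3, 1] [(1, 0, l)]
      [([(0, 0), (1, 2)], 0, 0)] [[J]] = true)
    (hU : ∀ M, ¬ IsModelX J M) : False := by
  have hα := tuple_4431.alphaEight hcov
  have hC0 := clsOK_rot h0 hc0 s
  have hC1 : ClsOK (genCD 4 true) (G 1) (fun u => (f1 u - j1).val) :=
    clsOK_mid hV h1 (hα 1) hj1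
  have lt0 : ∀ u, (f0 u - (c0 + (s : ℕ))).val < 11 := fun u => ZMod.val_lt _
  have lt1 : ∀ u, (f1 u - j1).val < 11 := fun u => ZMod.val_lt (f1 u - j1)
  have hconf := Conf.of_two (m := ![4, 4, 3, 1]) (rel := [(1, 0, l)]) hcov hC0 hC1 (by
    intro r hr u hu
    rw [List.mem_singleton] at hr
    subst hr
    have h2 := (dM_zero _ (lt1 u)).1 hu
    rw [val_eq_zero_iff'] at h2
    change (f0 u - (c0 + (s : ℕ))).val = l
    rw [huA u h2, hb, ← hl]
    congr 1
    ring)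
  refine Conf.false_of_instX hF hV hconf hα ?_ hU
  intro x hx
  rw [List.mem_singleton] at hx
  subst hx
  refine ⟨Nat.zero_le _, ?_⟩
  rw [Nat.le_zero, Finset.card_eq_zero, Finset.filter_eq_empty_iff]
  intro u _ hu
  have q0 := hu (0, 0) (by simp)
  have q1 := hu (1, 2) (by simp)
  have h2 := (dS_zero s _ (lt0 u)).1 q0
  rw [val_eq_zero_iff'] at h2
  have h3 : u = vB := huB u h2
  have h4 := dM_odd _ (lt1 u) (by rw [h3]; exact hodd)
  change (genCD 4 true).d (f1 u - j1).val = 2 at q1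
  rw [h4] at q1
  exact absurd q1 (by norm_num)

/-- the step without the condition on the label of `vB` -/
theorem step_MP' (hV : Fintype.card V = 17) {G : Fin 4 → SimpleGraph V}
    (hcov : Cover V ![4, 4, 3, 1] G)
    {f0 : V → ZMod (2 * 4 + 3)} (h0 : CycHom (G 0) (2 * 4 + 3) f0) {c0 : ZMod (2 * 4 + 3)}
    (hc0 : ProfC f0 c0)
    {f1 : V → ZMod (2 * 4 + 3)} (h1 : CycHom (G 1) (2 * 4 + 3) f1) {j1 : ZMod (2 * 4 + 3)}
    (hj1 : ProfM f1 j1)
    {vA : V} (hvA : f1 vA = j1) (huA : ∀ u, f1 u = j1 → u = vA)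
    {b s l : ℕ} (hb : f0 vA = c0 + (b : ℕ))
    (hs : szP (s % 11) = 1)
    (hl : ((b : ZMod (2 * 4 + 3)) - (s : ZMod (2 * 4 + 3))).val = l) (hl0 : l ≠ 0)
    {T : Spec2} {J : InstX}
    (hF : famX T [cdOf (rotP s), genCD 4 true] ![4, 4, 3, 1] [(1, 0, l)]
      [([(0, 0), (1, 2)], 0, 0)] [[J]] = true)
    (hU : ∀ M, ¬ IsModelX J M) : False := by
  obtain ⟨vB, hvB, huB⟩ := exists_of_single (f := f0) (j := c0 + (s : ℕ)) (by rw [hc0.at, hs])
  have hne : vB ≠ vA := by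
    rintro rfl
    rw [hvB] at hb
    have : ((b : ZMod (2 * 4 + 3)) - (s : ZMod (2 * 4 + 3))) = 0 := by
      linear_combination -hb
    rw [this, ZMod.val_zero] at hl
    exact hl0 hl.symm
  have hne0 : f1 vB - j1 ≠ 0 := by
    intro h
    exact hne (huA vB (sub_eq_zero.1 h))
  by_cases hodd : (f1 vB - j1).val % 2 = 1
  · exact step_MP hV hcov h0 hc0 h1 hj1 huA hb huB hl hodd hF hU
  · refine step_MP hV hcov h0 hc0 (f1 := fun u => - f1 u) h1.reflect (j1 := -j1) hj1.neg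
      (vA := vA) (vB := vB) ?_ hb huB hl ?_ hF hU
    · intro u hu
      exact huA u (neg_injective hu)
    · have e : (-f1 vB - -j1 : ZMod (2 * 4 + 3)) = -(f1 vB - j1) := by ring
      rw [e]
      have h2 : (f1 vB - j1).val ≠ 0 := by
        rw [Ne, ZMod.val_eq_zero]
        exact hne0
      have h3 : (f1 vB - j1).val < 11 := ZMod.val_lt _
      have h4 : (-(f1 vB - j1)).val = 11 - (f1 vB - j1).val := by
        rw [ZMod.neg_val, if_neg hne0]
      rw [h4]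
      omega

theorem val_casesMP : ∀ x : ZMod (2 * 4 + 3),
    (x = 0 ∨ x = 1 ∨ x = 2 ∨ x = 8 ∨ x = 6 ∨ x = 7) ∨
    (-x = 0 ∨ -x = 1 ∨ -x = 2 ∨ -x = 8 ∨ -x = 6 ∨ -x = 7) := by decide

theorem cdM_eq : genCD 4 true = (cdAt h4431MP0_cd 1) := by decide

/-- **(4,4,3,1)**, class 0 of type P and class 1 of type M -/
theorem case_4431MP (hV : Fintype.card V = 17) {G : Fin 4 → SimpleGraph V}
    (hcov : Cover V ![4, 4, 3, 1] G)
    {f0 : V → ZMod (2 * 4 + 3)} (h0 : CycHom (G 0) (2 * 4 + 3) f0) {j0 : ZMod (2 * 4 + 3)}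
    (hj0 : ProfP f0 j0)
    {f1 : V → ZMod (2 * 4 + 3)} (h1 : CycHom (G 1) (2 * 4 + 3) f1) {j1 : ZMod (2 * 4 + 3)}
    (hj1 : lsize f1 (j1 - 1) = 1 ∧ lsize f1 j1 = 1 ∧ lsize f1 (j1 + 1) = 1)
    (hU0 : ∀ M, ¬ IsModelX h4431MP0_J0 M) (hU1 : ∀ M, ¬ IsModelX h4431MP1_J0 M)
    (hU2 : ∀ M, ¬ IsModelX h4431MP2_J0 M) (hU3 : ∀ M, ¬ IsModelX h4431MP3_J0 M)
    (hU4 : ∀ M, ¬ IsModelX h4431MP4_J0 M) (hU5 : ∀ M, ¬ IsModelX h4431MP5_J0 M) : False := by
  have hc0 := hj0.center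
  obtain ⟨vA, hvA, huA⟩ := exists_of_single hj1.2.1
  have key : ∀ (f : V → ZMod (2 * 4 + 3)) (c : ZMod (2 * 4 + 3)),
      CycHom (G 0) (2 * 4 + 3) f → ProfC f c →
      (f vA - c = 0 ∨ f vA - c = 1 ∨ f vA - c = 2 ∨ f vA - c = 8 ∨ f vA - c = 6 ∨
        f vA - c = 7) → False := by
    intro f c hf hc hx
    rcases hx with hx | hx | hx | hx | hx | hx
    · exact step_MP' hV hcov hf hc h1 hj1 hvA huA (b := 0) (s := 3) (l := 8)
        (by push_cast; linear_combination hx) (by decide) (by decide) (by decide)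
        (T := h4431MP0_T) h4431MP0_fam hU0
    · exact step_MP' hV hcov hf hc h1 hj1 hvA huA (b := 1) (s := 8) (l := 4)
        (by push_cast; linear_combination hx) (by decide) (by decide) (by decide)
        (T := h4431MP1_T) h4431MP1_fam hU1
    · exact step_MP' hV hcov hf hc h1 hj1 hvA huA (b := 2) (s := 7) (l := 6)
        (by push_cast; linear_combination hx) (by decide) (by decide) (by decide)
        (T := h4431MP2_T) h4431MP2_fam hU2
    · exact step_MP' hV hcov hf hc h1 hj1 hvA huA (b := 8) (s := 4) (l := 4)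
        (by push_cast; linear_combination hx) (by decide) (by decide) (by decide)
        (T := h4431MP3_T) h4431MP3_fam hU3
    · exact step_MP' hV hcov hf hc h1 hj1 hvA huA (b := 6) (s := 0) (l := 6)
        (by push_cast; linear_combination hx) (by decide) (by decide) (by decide)
        (T := h4431MP4_T) h4431MP4_fam hU4
    · exact step_MP' hV hcov hf hc h1 hj1 hvA huA (b := 7) (s := 3) (l := 4)
        (by push_cast; linear_combination hx) (by decide) (by decide) (by decide)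
        (T := h4431MP5_T) h4431MP5_fam hU5
  rcases val_casesMP (f0 vA - (j0 + 8)) with hx | hx
  · exact key f0 (j0 + 8) h0 hc0 hx
  · refine key (fun u => - f0 u) (-(j0 + 8)) h0.reflect hc0.neg ?_
    have e : (-f0 vA - -(j0 + 8) : ZMod (2 * 4 + 3)) = -(f0 vA - (j0 + 8)) := by ring
    rw [e]
    exact hx

/-- exchange of the classes 0 and 1 -/
theorem Cover.swap01 {G : Fin 4 → SimpleGraph V} (hcov : Cover V ![4, 4, 3, 1] G) :
    Cover V ![4, 4, 3, 1] (fun i => G (Equiv.swap 0 1 i)) := by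
  refine ⟨?_, ?_⟩
  · intro u v huv
    obtain ⟨i, hi⟩ := hcov.cov u v huv
    refine ⟨Equiv.swap 0 1 i, ?_⟩
    rw [Equiv.swap_apply_self]
    exact hi
  · intro i v p hp
    have h : ∀ i : Fin 4, (![4, 4, 3, 1] : Fin 4 → ℕ) (Equiv.swap 0 1 i) =
        (![4, 4, 3, 1] : Fin 4 → ℕ) i := by decide
    have := hcov.girth (Equiv.swap 0 1 i) v p hp
    rw [h] at this
    exact this

/-- **(4,4,3,1)**: from the case in which both classes are of type M and the finite computations -/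
theorem case_4431 (hV : Fintype.card V = 17) {G : Fin 4 → SimpleGraph V}
    (hcov : Cover V ![4, 4, 3, 1] G)
    (hMM : ∀ {G : Fin 4 → SimpleGraph V}, Cover V ![4, 4, 3, 1] G →
      ∀ {f0 : V → ZMod (2 * 4 + 3)}, CycHom (G 0) (2 * 4 + 3) f0 →
      ∀ {j0 : ZMod (2 * 4 + 3)}, ProfM f0 j0 →
      ∀ {f1 : V → ZMod (2 * 4 + 3)}, CycHom (G 1) (2 * 4 + 3) f1 →
      ∀ {j1 : ZMod (2 * 4 + 3)}, ProfM f1 j1 → False)
    (hP : ∀ J ∈ [h4431PP0_J0, h4431PP1_J0, h4431PP2_J0, h4431PP3_J0, h4431PP4_J0, h4431PP5_J0,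
      h4431MP0_J0, h4431MP1_J0, h4431MP2_J0, h4431MP3_J0, h4431MP4_J0, h4431MP5_J0],
      ∀ M, ¬ IsModelX J M) : False := by
  have hα := tuple_4431.alphaEight hcov
  obtain ⟨f0, h0⟩ := cycHom_of_four_le hV (m := 4) (by norm_num) (hα 0)
    (fun v p hp => hcov.girth 0 v p hp)
  obtain ⟨f1, h1⟩ := cycHom_of_four_le hV (m := 4) (by norm_num) (hα 1)
    (fun v p hp => hcov.girth 1 v p hp)
  have q : ∀ (n : ℕ) (hn : n < 12), ∀ M, ¬ IsModelX ([h4431PP0_J0, h4431PP1_J0, h4431PP2_J0,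
      h4431PP3_J0, h4431PP4_J0, h4431PP5_J0, h4431MP0_J0, h4431MP1_J0, h4431MP2_J0, h4431MP3_J0,
      h4431MP4_J0, h4431MP5_J0][n]) M := fun n hn => hP _ (List.getElem_mem _)
  rcases profile_four hV h0 (hα 0) with ⟨j0, hj0⟩ | ⟨j0, hj0⟩
  · rcases profile_four hV h1 (hα 1) with ⟨j1, hj1⟩ | ⟨j1, hj1⟩
    · exact hMM hcov h0 hj0 h1 hj1
    · refine case_4431MP hV (Cover.swap01 hcov) (f0 := f1) ?_ hj1 (f1 := f0) ?_ hj0
        (q 6 (by norm_num)) (q 7 (by norm_num)) (q 8 (by norm_num)) (q 9 (by norm_num))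
        (q 10 (by norm_num)) (q 11 (by norm_num))
      · exact h1
      · exact h0
  · rcases profile_four hV h1 (hα 1) with ⟨j1, hj1⟩ | ⟨j1, hj1⟩
    · exact case_4431MP hV hcov h0 hj0 h1 hj1
        (q 6 (by norm_num)) (q 7 (by norm_num)) (q 8 (by norm_num)) (q 9 (by norm_num))
        (q 10 (by norm_num)) (q 11 (by norm_num))
    · exact case_4431PP hV hcov h0 hj0 h1 hj1
        (q 0 (by norm_num)) (q 1 (by norm_num)) (q 2 (by norm_num)) (q 3 (by norm_num))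
        (q 4 (by norm_num)) (q 5 (by norm_num))

end

end Pool.Agent.Work.MP_92a29d_co.Place
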