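import Pool.Agent.Work.MP_92a29d_co_h36.CG4322P
import Pool.Agent.Work.MP_92a29d_co_h36.CPairs
import Pool.Agent.Work.MP_92a29d_co_h45.pp.PP0
import Pool.Agent.Work.MP_92a29d_co_h45.pp.PP1
import Pool.Agent.Work.MP_92a29d_co_h45.pp.PP2
import Pool.Agent.Work.MP_92a29d_co_h45.pp.PP3
import Pool.Agent.Work.MP_92a29d_co_h45.pp.PP4
import Pool.Agent.Work.MP_92a29d_co_h45.pp.PP5

/-!
(4,4,3,1): both classes with `m = 4` have the profile (1,1,2,2,1,1,2,2,1,2,2).
-/

namespace Pool.Agent.Work.MP_92a29d_co.Place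

open SimpleGraph Finset Pool.Agent.Work.MP_92a29d_co_h45

theorem tuple_4431 : Tuple4 4 4 3 1 :=
  ⟨by norm_num, by norm_num, by norm_num, by norm_num, by unfold Good3; omega⟩

/-- the sizes, counted from the centre -/
def szP (a : ℕ) : ℕ := [1, 2, 2, 1, 1, 2, 2, 1, 1, 2, 2].getD a 0

section

variable {V : Type*} [Fintype V] [DecidableEq V]

/-- the profile, counted from the centre -/
def ProfC (f : V → ZMod (2 * 4 + 3)) (c : ZMod (2 * 4 + 3)) : Prop :=
  ∀ a < 11, lsize f (c + (a : ℕ)) = szP a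

omit [DecidableEq V] in
theorem ProfP.center {f : V → ZMod (2 * 4 + 3)} {j : ZMod (2 * 4 + 3)} (h : ProfP f j) :
    ProfC f (j + 8) := by
  obtain ⟨h0, h1, h2, h3, h4, h5, h6, h7, h8, h9, h10⟩ := h
  have e11 : (11 : ZMod (2 * 4 + 3)) = 0 := by decide
  intro a ha
  interval_cases a
  · rw [Nat.cast_zero, add_zero]; exact h8
  · rw [show j + 8 + ((1 : ℕ) : ZMod (2 * 4 + 3)) = j + 9 by push_cast; ring]; exact h9
  · rw [show j + 8 + ((2 : ℕ) : ZMod (2 * 4 + 3)) = j + 10 by push_cast; ring]; exact h10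
  · rw [show j + 8 + ((3 : ℕ) : ZMod (2 * 4 + 3)) = j by push_cast; linear_combination e11]
    exact h0
  · rw [show j + 8 + ((4 : ℕ) : ZMod (2 * 4 + 3)) = j + 1 by push_cast; linear_combination e11]
    exact h1
  · rw [show j + 8 + ((5 : ℕ) : ZMod (2 * 4 + 3)) = j + 2 by push_cast; linear_combination e11]
    exact h2
  · rw [show j + 8 + ((6 : ℕ) : ZMod (2 * 4 + 3)) = j + 3 by push_cast; linear_combination e11]
    exact h3
  · rw [show j + 8 + ((7 : ℕ) : ZMod (2 * 4 + 3)) = j + 4 by push_cast; linear_combination e11]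
    exact h4
  · rw [show j + 8 + ((8 : ℕ) : ZMod (2 * 4 + 3)) = j + 5 by push_cast; linear_combination e11]
    exact h5
  · rw [show j + 8 + ((9 : ℕ) : ZMod (2 * 4 + 3)) = j + 6 by push_cast; linear_combination e11]
    exact h6
  · rw [show j + 8 + ((10 : ℕ) : ZMod (2 * 4 + 3)) = j + 7 by push_cast; linear_combination e11]
    exact h7

theorem szP_sym : ∀ a < 11, szP ((11 - a) % 11) = szP a := by decide

theorem natCast_mod11 (a : ℕ) : ((a % 11 : ℕ) : ZMod (2 * 4 + 3)) = a :=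
  ZMod.natCast_mod a 11

omit [DecidableEq V] in
theorem ProfC.at {f : V → ZMod (2 * 4 + 3)} {c : ZMod (2 * 4 + 3)} (h : ProfC f c) (a : ℕ) :
    lsize f (c + (a : ℕ)) = szP (a % 11) := by
  rw [← natCast_mod11 a]
  exact h _ (Nat.mod_lt _ (by norm_num))

omit [DecidableEq V] in
theorem ProfC.neg {f : V → ZMod (2 * 4 + 3)} {c : ZMod (2 * 4 + 3)} (h : ProfC f c) :
    ProfC (fun u => - f u) (-c) := by
  intro a ha
  rw [lsize_neg]
  have e11 : ((11 : ℕ) : ZMod (2 * 4 + 3)) = 0 := by decide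
  have e : -(-c + ((a : ℕ) : ZMod (2 * 4 + 3))) = c + ((11 - a : ℕ) : ZMod (2 * 4 + 3)) := by
    rw [Nat.cast_sub (by omega), e11]
    ring
  rw [e, h.at]
  exact szP_sym a ha

/-- data of a class with the given sizes -/
def cdOf (sz : List ℕ) : CD :=
  ⟨.lev 4, sz.map fun x => (x, x), [0, 1, 2, 1, 2, 1, 2, 1, 2, 1, 2]⟩

/-- sizes counted from the level `s` -/
def rotP (s : ℕ) : List ℕ := (List.range 11).map fun b => szP ((s + b) % 11)

theorem clsOK_rot {G : SimpleGraph V} {f : V → ZMod (2 * 4 + 3)} (hf : CycHom G (2 * 4 + 3) f)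
    {c : ZMod (2 * 4 + 3)} (hc : ProfC f c) (s : ℕ) :
    ClsOK (cdOf (rotP s)) G (fun u => (f u - (c + (s : ℕ))).val) := by
  refine clsOK_level hf (c + (s : ℕ)) rfl ?_ ?_
  · change ((rotP s).map fun x => (x, x)).length = _
    rw [List.length_map]
    change (List.map _ (List.range 11)).length = _
    rw [List.length_map, List.length_range]
  · intro a ha
    have ha' : a < 11 := ha
    have e : c + ((s : ℕ) : ZMod (2 * 4 + 3)) + ((a : ℕ) : ZMod (2 * 4 + 3)) =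
        c + ((s + a : ℕ) : ZMod (2 * 4 + 3)) := by push_cast; ring
    have hb : (cdOf (rotP s)).bd.getD a (0, 0) = (szP ((s + a) % 11), szP ((s + a) % 11)) := by
      change ((((List.range 11).map fun b => szP ((s + b) % 11)).map fun x => (x, x))).getD a
        (0, 0) = _
      rw [List.getD_eq_getElem?_getD, List.getElem?_map, List.getElem?_map,
        List.getElem?_range ha']
      rfl
    rw [e, hc.at]
    unfold CD.lo CD.hi
    rw [hb]
    exact ⟨le_rfl, le_rfl⟩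

theorem szP_zero : szP 0 = 1 := rfl

theorem dP_zero : ∀ b < 11, (cdOf (rotP 0)).d b = 0 ↔ b = 0 := by decide
theorem dS_zero (s : ℕ) : ∀ b < 11, (cdOf (rotP s)).d b = 0 ↔ b = 0 := by
  intro b hb
  exact dP_zero b hb
theorem dP_odd : ∀ b < 11, b % 2 = 1 → (cdOf (rotP 0)).d b = 1 := by decide

/-- the step: `v0` is the centre of class 0 and has the index `a` in class 1, the vertex `v1` of
index `s` in class 1 has an odd label in class 0 -/
theorem step_PP (hV : Fintype.card V = 17) {G : Fin 4 → SimpleGraph V}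
    (hcov : Cover V ![4, 4, 3, 1] G)
    {f0 : V → ZMod (2 * 4 + 3)} (h0 : CycHom (G 0) (2 * 4 + 3) f0) {c0 : ZMod (2 * 4 + 3)}
    (hc0 : ProfC f0 c0)
    {f1 : V → ZMod (2 * 4 + 3)} (h1 : CycHom (G 1) (2 * 4 + 3) f1) {c1 : ZMod (2 * 4 + 3)}
    (hc1 : ProfC f1 c1)
    {v0 v1 : V} (hv0 : f0 v0 = c0) (hu0 : ∀ u, f0 u = c0 → u = v0)
    {a s l : ℕ} (ha : f1 v0 = c1 + (a : ℕ)) (hv1 : ∀ u, f1 u = c1 + (s : ℕ) → u = v1)
    (hl : ((a : ZMod (2 * 4 + 3)) - (s : ZMod (2 * 4 + 3))).val = l)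
    (hodd : (f0 v1 - c0).val % 2 = 1)
    {T : Spec2} {J : InstX}
    (hF : famX T [cdOf (rotP 0), cdOf (rotP s)] ![4, 4, 3, 1] [(0, 1, l)]
      [([(1, 0), (0, 2)], 0, 0)] [[J]] = true)
    (hU : ∀ M, ¬ IsModelX J M) : False := by
  have hα := tuple_4431.alphaEight hcov
  have hC0 : ClsOK (cdOf (rotP 0)) (G 0) (fun u => (f0 u - c0).val) := by
    have := clsOK_rot h0 hc0 0
    simp only [Nat.cast_zero, add_zero] at this
    exact this
  have hC1 := clsOK_rot h1 hc1 s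
  have lt0 : ∀ u, (f0 u - c0).val < 11 := fun u => ZMod.val_lt (f0 u - c0)
  have lt1 : ∀ u, (f1 u - (c1 + (s : ℕ))).val < 11 := fun u => ZMod.val_lt _
  have hconf := Conf.of_two (m := ![4, 4, 3, 1]) (rel := [(0, 1, l)]) hcov hC0 hC1 (by
    intro r hr u hu
    rw [List.mem_singleton] at hr
    subst hr
    have h2 := (dP_zero _ (lt0 u)).1 hu
    rw [val_eq_zero_iff'] at h2
    change (f1 u - (c1 + (s : ℕ))).val = l
    rw [hu0 u h2, ha, ← hl]
    congr 1
    ring)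
  refine Conf.false_of_instX hF hV hconf hα ?_ hU
  intro x hx
  rw [List.mem_singleton] at hx
  subst hx
  refine ⟨Nat.zero_le _, ?_⟩
  rw [Nat.le_zero, Finset.card_eq_zero, Finset.filter_eq_empty_iff]
  intro u _ hu
  have q1 := hu (1, 0) (by simp)
  have q0 := hu (0, 2) (by simp)
  have h2 := (dS_zero s _ (lt1 u)).1 q1
  rw [val_eq_zero_iff'] at h2
  have h3 : u = v1 := hv1 u h2
  have h4 := dP_odd _ (lt0 u) (by rw [h3]; exact hodd)
  change (cdOf (rotP 0)).d (f0 u - c0).val = 2 at q0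
  rw [h4] at q0
  exact absurd q0 (by norm_num)

/-- the step without the condition on the label of `v1` -/
theorem step_PP' (hV : Fintype.card V = 17) {G : Fin 4 → SimpleGraph V}
    (hcov : Cover V ![4, 4, 3, 1] G)
    {f0 : V → ZMod (2 * 4 + 3)} (h0 : CycHom (G 0) (2 * 4 + 3) f0) {c0 : ZMod (2 * 4 + 3)}
    (hc0 : ProfC f0 c0)
    {f1 : V → ZMod (2 * 4 + 3)} (h1 : CycHom (G 1) (2 * 4 + 3) f1) {c1 : ZMod (2 * 4 + 3)}
    (hc1 : ProfC f1 c1)
    {v0 : V} (hv0 : f0 v0 = c0) (hu0 : ∀ u, f0 u = c0 → u = v0)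
    {a s l : ℕ} (ha : f1 v0 = c1 + (a : ℕ))
    (hs : szP (s % 11) = 1)
    (hl : ((a : ZMod (2 * 4 + 3)) - (s : ZMod (2 * 4 + 3))).val = l) (hl0 : l ≠ 0)
    {T : Spec2} {J : InstX}
    (hF : famX T [cdOf (rotP 0), cdOf (rotP s)] ![4, 4, 3, 1] [(0, 1, l)]
      [([(1, 0), (0, 2)], 0, 0)] [[J]] = true)
    (hU : ∀ M, ¬ IsModelX J M) : False := by
  obtain ⟨v1, hv1, hu1⟩ := exists_of_single (f := f1) (j := c1 + (s : ℕ)) (by rw [hc1.at, hs])
  have hne : v1 ≠ v0 := by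
    rintro rfl
    rw [hv1] at ha
    have : ((a : ZMod (2 * 4 + 3)) - (s : ZMod (2 * 4 + 3))) = 0 := by
      linear_combination -ha
    rw [this, ZMod.val_zero] at hl
    exact hl0 hl.symm
  have hne0 : f0 v1 - c0 ≠ 0 := by
    intro h
    exact hne (hu0 v1 (sub_eq_zero.1 h))
  by_cases hodd : (f0 v1 - c0).val % 2 = 1
  · exact step_PP hV hcov h0 hc0 h1 hc1 hv0 hu0 ha hu1 hl hodd hF hU
  · refine step_PP hV hcov (f0 := fun u => - f0 u) h0.reflect (c0 := -c0) hc0.neg h1 hc1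
      (v0 := v0) (v1 := v1) ?_ ?_ ha hu1 hl ?_ hF hU
    · rw [hv0]
    · intro u hu
      exact hu0 u (neg_injective hu)
    · have e : (-f0 v1 - -c0 : ZMod (2 * 4 + 3)) = -(f0 v1 - c0) := by ring
      rw [e]
      have h2 : (f0 v1 - c0).val ≠ 0 := by
        rw [Ne, ZMod.val_eq_zero]
        exact hne0
      have h3 : (f0 v1 - c0).val < 11 := ZMod.val_lt _
      have h4 : (-(f0 v1 - c0)).val = 11 - (f0 v1 - c0).val := by
        rw [ZMod.neg_val, if_neg hne0]
      rw [h4]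
      omega

theorem val_cases : ∀ x : ZMod (2 * 4 + 3), (x = 0 ∨ x = 1 ∨ x = 9 ∨ x = 8 ∨ x = 4 ∨ x = 5) ∨
    (-x = 0 ∨ -x = 1 ∨ -x = 9 ∨ -x = 8 ∨ -x = 4 ∨ -x = 5) := by decide

/-- **(4,4,3,1)**, both classes with `m = 4` of type P -/
theorem case_4431PP (hV : Fintype.card V = 17) {G : Fin 4 → SimpleGraph V}
    (hcov : Cover V ![4, 4, 3, 1] G)
    {f0 : V → ZMod (2 * 4 + 3)} (h0 : CycHom (G 0) (2 * 4 + 3) f0) {j0 : ZMod (2 * 4 + 3)}
    (hj0 : ProfP f0 j0)
    {f1 : V → ZMod (2 * 4 + 3)} (h1 : CycHom (G 1) (2 * 4 + 3) f1) {j1 : ZMod (2 * 4 + 3)}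
    (hj1 : ProfP f1 j1)
    (hU0 : ∀ M, ¬ IsModelX h4431PP0_J0 M) (hU1 : ∀ M, ¬ IsModelX h4431PP1_J0 M)
    (hU2 : ∀ M, ¬ IsModelX h4431PP2_J0 M) (hU3 : ∀ M, ¬ IsModelX h4431PP3_J0 M)
    (hU4 : ∀ M, ¬ IsModelX h4431PP4_J0 M) (hU5 : ∀ M, ¬ IsModelX h4431PP5_J0 M) : False := by
  have hc0 := hj0.center
  have hc1 := hj1.center
  obtain ⟨v0, hv0, hu0⟩ := exists_of_single (f := f0) (j := j0 + 8) (by
    have := hc0 0 (by norm_num)
    rw [Nat.cast_zero, add_zero] at this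
    exact this)
  have key : ∀ (f : V → ZMod (2 * 4 + 3)) (c : ZMod (2 * 4 + 3)),
      CycHom (G 1) (2 * 4 + 3) f → ProfC f c →
      (f v0 - c = 0 ∨ f v0 - c = 1 ∨ f v0 - c = 9 ∨ f v0 - c = 8 ∨ f v0 - c = 4 ∨
        f v0 - c = 5) → False := by
    intro f c hf hc hx
    rcases hx with hx | hx | hx | hx | hx | hx
    · exact step_PP' hV hcov h0 hc0 hf hc hv0 hu0 (a := 0) (s := 8) (l := 3)
        (by push_cast; linear_combination hx) (by decide) (by decide) (by decide)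
        (T := h4431PP0_T) h4431PP0_fam hU0
    · exact step_PP' hV hcov h0 hc0 hf hc hv0 hu0 (a := 1) (s := 3) (l := 9)
        (by push_cast; linear_combination hx) (by decide) (by decide) (by decide)
        (T := h4431PP1_T) h4431PP1_fam hU1
    · exact step_PP' hV hcov h0 hc0 hf hc hv0 hu0 (a := 9) (s := 8) (l := 1)
        (by push_cast; linear_combination hx) (by decide) (by decide) (by decide)
        (T := h4431PP2_T) h4431PP2_fam hU2
    · exact step_PP' hV hcov h0 hc0 hf hc hv0 hu0 (a := 8) (s := 7) (l := 1)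
        (by push_cast; linear_combination hx) (by decide) (by decide) (by decide)
        (T := h4431PP3_T) h4431PP3_fam hU3
    · exact step_PP' hV hcov h0 hc0 hf hc hv0 hu0 (a := 4) (s := 3) (l := 1)
        (by push_cast; linear_combination hx) (by decide) (by decide) (by decide)
        (T := h4431PP4_T) h4431PP4_fam hU4
    · exact step_PP' hV hcov h0 hc0 hf hc hv0 hu0 (a := 5) (s := 7) (l := 9)
        (by push_cast; linear_combination hx) (by decide) (by decide) (by decide)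
        (T := h4431PP5_T) h4431PP5_fam hU5
  rcases val_cases (f1 v0 - (j1 + 8)) with hx | hx
  · exact key f1 (j1 + 8) h1 hc1 hx
  · refine key (fun u => - f1 u) (-(j1 + 8)) h1.reflect hc1.neg ?_
    have e : (-f1 v0 - -(j1 + 8) : ZMod (2 * 4 + 3)) = -(f1 v0 - (j1 + 8)) := by ring
    rw [e]
    exact hx

end

end Pool.Agent.Work.MP_92a29d_co.Place
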