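import Pool.Agent.Work.MP_92a29d_co_h36.Digits

/-!
Families of extended instances without local codes and without symmetries.
-/

namespace Pool.Agent.Work.MP_92a29d_co.Place

open SimpleGraph Finset Pool.Agent.Work.MP_92a29d_co_h45

theorem Conf.dconf {V : Type*} [Fintype V] [DecidableEq V] {cd : List CD} {m : Fin 4 → ℕ}
    {rel : List (ℕ × ℕ × ℕ)} {G : Fin 4 → SimpleGraph V} {X : ℕ → V → ℕ} {B : ℕ}
    (h : Conf cd m rel G X)
    (hB : ∀ i < cd.length, ∀ a < (cdAt cd i).n, (cdAt cd i).d a < B) :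
    DConf cd m rel B cd.length [] [] G X (fun i u => (cdAt cd i).d (X i u)) where
  conf := h
  digs := fun _ _ _ => rfl
  lt := fun i hi u => hB i hi _ (h.lt i hi u)
  rule := fun r hr => absurd hr List.not_mem_nil
  fact := fun f hf => absurd hf List.not_mem_nil

/-- the checks of a family of extended instances; `ext` lists additional bounds -/
def famX (T : Spec2) (cd : List CD) (m : Fin 4 → ℕ) (rel : List (ℕ × ℕ × ℕ))
    (ext : List (List (ℕ × ℕ) × ℕ × ℕ)) (inst : List (List InstX)) : Bool :=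
  famD T cd m rel 3 cd.length [] [] inst && (decide (cd.length ≤ 4) &&
  (allLt cd.length (fun i => allLt (cdAt cd i).n fun a => Nat.blt ((cdAt cd i).d a) 3) &&
  (T.pats.all (fun x => x.1.all (fun y => Nat.blt y.2 3) && (patB cd m rel 3 x ||
    decide (x ∈ ext))))))

/-- a configuration gives a model of one of the instances -/
theorem Conf.exists_instX {T : Spec2} {cd : List CD} {m : Fin 4 → ℕ} {rel : List (ℕ × ℕ × ℕ)}
    {ext : List (List (ℕ × ℕ) × ℕ × ℕ)} {inst : List (List InstX)}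
    (hF : famX T cd m rel ext inst = true)
    {V : Type*} [Fintype V] [DecidableEq V] (hV : Fintype.card V = 17)
    {G : Fin 4 → SimpleGraph V} {X : ℕ → V → ℕ} (h : Conf cd m rel G X)
    (hα : ∀ i, AlphaEight (G i))
    (hext : ∀ x ∈ ext, x.2.1 ≤ (Finset.univ.filter fun u =>
        ∀ y ∈ x.1, (cdAt cd y.1).d (X y.1 u) = y.2).card ∧
      (Finset.univ.filter fun u => ∀ y ∈ x.1, (cdAt cd y.1).d (X y.1 u) = y.2).card ≤ x.2.2) :
    ∃ Is ∈ inst, ∃ J ∈ Is, ∃ M, IsModelX J M := by
  unfold famX at hF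
  simp only [Bool.and_eq_true, decide_eq_true_iff, allLt_iff, List.all_eq_true, Nat.blt_eq,
    Bool.or_eq_true] at hF
  obtain ⟨hD, hk, hd, hpats⟩ := hF
  refine DConf.exists_inst hD hV (h.dconf hd) ?_
  intro x hx
  obtain ⟨h1, h2⟩ := hpats x hx
  rcases h2 with h2 | h2
  · exact h.pat_sound hV hα hk hd h1 h2
  · exact hext x h2

/-- a configuration whose instances have no model -/
theorem Conf.false_of_instX {T : Spec2} {cd : List CD} {m : Fin 4 → ℕ}
    {rel : List (ℕ × ℕ × ℕ)} {ext : List (List (ℕ × ℕ) × ℕ × ℕ)} {J : InstX}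
    (hF : famX T cd m rel ext [[J]] = true)
    {V : Type*} [Fintype V] [DecidableEq V] (hV : Fintype.card V = 17)
    {G : Fin 4 → SimpleGraph V} {X : ℕ → V → ℕ} (h : Conf cd m rel G X)
    (hα : ∀ i, AlphaEight (G i))
    (hext : ∀ x ∈ ext, x.2.1 ≤ (Finset.univ.filter fun u =>
        ∀ y ∈ x.1, (cdAt cd y.1).d (X y.1 u) = y.2).card ∧
      (Finset.univ.filter fun u => ∀ y ∈ x.1, (cdAt cd y.1).d (X y.1 u) = y.2).card ≤ x.2.2)
    (hU : ∀ M, ¬ IsModelX J M) : False := by
  obtain ⟨Is, hIs, J', hJ', M, hM⟩ := Conf.exists_instX hF hV h hα hext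
  rw [List.mem_singleton] at hIs
  subst hIs
  rw [List.mem_singleton] at hJ'
  subst hJ'
  exact hU M hM

end Pool.Agent.Work.MP_92a29d_co.Place
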